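import Pool.Agent.H651R3.Nev2

set_option autoImplicit false

open Set Filter Topology

namespace Pool.Agent.Results.MP_9bfa98_an.UnboundedDifference

/-- `m` is meromorphic on the plane, maps the open upper half plane into itself and the open lower
half plane into itself. -/
def IsNevanlinna (m : ℂ → ℂ) : Prop :=
  (∀ z, MeromorphicAt m z) ∧ (∀ z : ℂ, 0 < z.im → 0 < (m z).im) ∧ ∀ z : ℂ, z.im < 0 → (m z).im < 0

/-- the number of zeros of the meromorphic function `h` in `U`, counted with multiplicity -/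
noncomputable def zeroCount (h : ℂ → ℂ) (U : Set ℂ) : ℕ :=
  ∑ᶠ z ∈ U, (meromorphicOrderAt h z).untop₀.toNat

/-- the number of poles of the meromorphic function `h` in `U`, counted with multiplicity -/
noncomputable def poleCount (h : ℂ → ℂ) (U : Set ℂ) : ℕ :=
  ∑ᶠ z ∈ U, (-(meromorphicOrderAt h z).untop₀).toNat

open Pool.Agent.H651R3.Nev

lemma sub_g (N : ℕ) : m N - g = fun x => (del N : ℂ) * W N x := by
  ext x
  simp [m]

lemma zero_val {N : ℕ} {z : ℂ} (h1 : z.re < 1) :
    (meromorphicOrderAt (fun x => (del N : ℂ) * W N x) z).untop₀.toNat =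
      (by classical exact if ∃ l, l + 1 < N ∧ z = (y N l : ℂ) then 3 else 0) := by
  classical
  by_cases h : ∃ l, l + 1 < N ∧ z = (y N l : ℂ)
  · rw [if_pos h]
    obtain ⟨l, hl, rfl⟩ := h
    rw [order_y hl]
    rfl
  · rw [if_neg h]
    push Not at h
    by_cases hv : ∃ i < 3 * N, z = (v N i : ℂ)
    · obtain ⟨i, hi, rfl⟩ := hv
      rw [order_v hi]
      rfl
    · push Not at hv
      rw [order_other h hv]
      rfl

lemma zeroCount_eq {N : ℕ} (hN : 0 < N) {U : Set ℂ} (hU : ∀ z ∈ U, 0 < z.re ∧ z.re < 1) :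
    zeroCount (m N - g) U =
      3 * (by classical exact ((Finset.range (N - 1)).filter (fun l => (y N l : ℂ) ∈ U)).card) := by
  classical
  unfold zeroCount
  rw [sub_g]
  set S : Finset ℂ := ((Finset.range (N - 1)).filter (fun l => (y N l : ℂ) ∈ U)).image (fun l => (y N l : ℂ)) with hS
  have h1 : ∑ᶠ z ∈ U, (meromorphicOrderAt (fun x => (del N : ℂ) * W N x) z).untop₀.toNat =
      ∑ z ∈ S, (meromorphicOrderAt (fun x => (del N : ℂ) * W N x) z).untop₀.toNat := by
    apply finsum_mem_eq_sum_of_inter_support_eq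
    ext z
    simp only [mem_inter_iff, Function.mem_support, SetLike.mem_coe, and_congr_left_iff]
    intro hz
    constructor
    · intro hzU
      rw [zero_val (hU z hzU).2] at hz
      have h : ∃ l, l + 1 < N ∧ z = (y N l : ℂ) := by
        by_contra hcon
        rw [if_neg hcon] at hz
        exact hz rfl
      obtain ⟨l, hl, rfl⟩ := h
      rw [hS, Finset.mem_image]
      exact ⟨l, Finset.mem_filter.2 ⟨Finset.mem_range.2 (by omega), hzU⟩, rfl⟩
    · intro hzS
      rw [hS, Finset.mem_image] at hzS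
      obtain ⟨l, hl, rfl⟩ := hzS
      exact (Finset.mem_filter.1 hl).2
  rw [h1]
  have h2 : ∀ z ∈ S, (meromorphicOrderAt (fun x => (del N : ℂ) * W N x) z).untop₀.toNat = 3 := by
    intro z hz
    rw [hS, Finset.mem_image] at hz
    obtain ⟨l, hl, rfl⟩ := hz
    have := Finset.mem_range.1 (Finset.mem_filter.1 hl).1
    rw [order_y (by omega)]
    rfl
  rw [Finset.sum_congr rfl h2, Finset.sum_const, smul_eq_mul, mul_comm]
  congr 1
  rw [hS, Finset.card_image_of_injective]
  intro a b hab
  exact (y_mono hN).injective (Complex.ofReal_injective hab)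

lemma pole_val {N : ℕ} {z : ℂ} (h0 : 0 < z.re) (h1 : z.re < 1) :
    meromorphicOrderAt (m N) z < 0 ↔ ∃ i < N, z = (v N i : ℂ) := by
  constructor
  · intro h
    by_contra hcon
    push Not at hcon
    exact absurd h (not_lt.2 (m_analytic h0 h1 hcon).meromorphicOrderAt_nonneg)
  · rintro ⟨i, hi, rfl⟩
    rw [m_order_v hi]
    exact WithTop.coe_lt_coe.2 (by norm_num : (-1 : ℤ) < 0)

lemma pole_nat {N : ℕ} {z : ℂ} (h0 : 0 < z.re) (h1 : z.re < 1) :
    (-(meromorphicOrderAt (m N) z).untop₀).toNat =
      (by classical exact if ∃ i < N, z = (v N i : ℂ) then 1 else 0) := by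
  classical
  by_cases h : ∃ i < N, z = (v N i : ℂ)
  · rw [if_pos h]
    obtain ⟨i, hi, rfl⟩ := h
    rw [m_order_v hi]
    rfl
  · rw [if_neg h]
    push Not at h
    have h2 := (m_analytic h0 h1 h).meromorphicOrderAt_nonneg
    rw [Int.toNat_eq_zero]
    have : 0 ≤ (meromorphicOrderAt (m N) z).untop₀ := by
      rcases h3 : meromorphicOrderAt (m N) z with _ | k
      · rfl
      · rw [h3] at h2
        exact WithTop.coe_le_coe.1 h2
    linarith

lemma poleCount_eq {N : ℕ} (hN : 0 < N) {U : Set ℂ} (hU : ∀ z ∈ U, 0 < z.re ∧ z.re < 1) :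
    poleCount (m N) U =
      (by classical exact ((Finset.range N).filter (fun l => (v N l : ℂ) ∈ U)).card) := by
  classical
  unfold poleCount
  set S : Finset ℂ := ((Finset.range N).filter (fun l => (v N l : ℂ) ∈ U)).image (fun l => (v N l : ℂ)) with hS
  have h1 : ∑ᶠ z ∈ U, (-(meromorphicOrderAt (m N) z).untop₀).toNat =
      ∑ z ∈ S, (-(meromorphicOrderAt (m N) z).untop₀).toNat := by
    apply finsum_mem_eq_sum_of_inter_support_eq
    ext z
    simp only [mem_inter_iff, Function.mem_support, SetLike.mem_coe, and_congr_left_iff]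
    intro hz
    constructor
    · intro hzU
      rw [pole_nat (hU z hzU).1 (hU z hzU).2] at hz
      have h : ∃ i < N, z = (v N i : ℂ) := by
        by_contra hcon
        rw [if_neg hcon] at hz
        exact hz rfl
      obtain ⟨l, hl, rfl⟩ := h
      rw [hS, Finset.mem_image]
      exact ⟨l, Finset.mem_filter.2 ⟨Finset.mem_range.2 hl, hzU⟩, rfl⟩
    · intro hzS
      rw [hS, Finset.mem_image] at hzS
      obtain ⟨l, hl, rfl⟩ := hzS
      exact (Finset.mem_filter.1 hl).2
  rw [h1]
  have h2 : ∀ z ∈ S, (-(meromorphicOrderAt (m N) z).untop₀).toNat = 1 := by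
    intro z hz
    rw [hS, Finset.mem_image] at hz
    obtain ⟨l, hl, rfl⟩ := hz
    have := Finset.mem_range.1 (Finset.mem_filter.1 hl).1
    rw [m_order_v this]
    rfl
  rw [Finset.sum_congr rfl h2, Finset.sum_const, smul_eq_mul, mul_one]
  rw [hS, Finset.card_image_of_injective]
  intro a b hab
  exact (v_mono hN).injective (Complex.ofReal_injective hab)

/-- many nodes in an interval -/
lemma many {a b : ℝ} (ha : 0 ≤ a) (hab : a < b) (hb : b ≤ 1) (M N : ℕ) (hM : (M:ℝ) + 1 < N * (b - a)) :
    M ≤ (by classical exact ((Finset.range N).filter (fun l => v N l ∈ Ioo a b)).card) := by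
  classical
  have hN : 0 < N := by
    rcases Nat.eq_zero_or_pos N with h | h
    · subst h
      have : (0:ℝ) ≤ M := by positivity
      simp at hM
      linarith
    · exact h
  have hN' : (0:ℝ) < N := by exact_mod_cast hN
  set i₀ := ⌊(N:ℝ) * a⌋₊ with hi₀
  have h1 : (i₀ : ℝ) ≤ N * a := Nat.floor_le (by positivity)
  have h2 : (N:ℝ) * a < i₀ + 1 := Nat.lt_floor_add_one _
  have hsub : (Finset.Ioc i₀ (i₀ + M)) ⊆ (Finset.range N).filter (fun l => v N l ∈ Ioo a b) := by
    intro l hl
    rw [Finset.mem_Ioc] at hl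
    have h3 : (i₀:ℝ) + 1 ≤ l := by exact_mod_cast hl.1
    have h4 : (l:ℝ) ≤ i₀ + M := by exact_mod_cast hl.2
    have h5 : (l:ℝ) + 1 < N * b := by nlinarith
    have h6 : l < N := by
      have : (l:ℝ) < N := by nlinarith
      exact_mod_cast this
    rw [Finset.mem_filter, Finset.mem_range]
    refine ⟨h6, ?_⟩
    unfold v
    rw [if_pos h6]
    constructor
    · rw [lt_div_iff₀ (by positivity)]; nlinarith
    · rw [div_lt_iff₀ (by positivity)]; nlinarith
  have := Finset.card_le_card hsub
  rw [Nat.card_Ioc] at this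
  omega

lemma m_conj (N : ℕ) (z : ℂ) : m N ((starRingEnd ℂ) z) = (starRingEnd ℂ) (m N z) := by
  unfold m g W Complex.cot
  simp only [map_add, map_neg, map_mul, map_div₀, map_prod, map_pow, map_sub, Complex.conj_ofReal]
  rw [← Complex.cos_conj, ← Complex.sin_conj]
  simp only [map_mul, Complex.conj_ofReal]

lemma m_nev {N : ℕ} (hN : 0 < N) : IsNevanlinna (m N) := by
  refine ⟨m_mero N, fun z hz => m_im_pos hN hz, fun z hz => ?_⟩
  have h1 := m_im_pos hN (z := (starRingEnd ℂ) z) (by simpa using hz)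
  rw [m_conj] at h1
  simpa using h1

/-- the number of poles in the interval `(a, b)` tends to infinity -/
lemma poles_many {a b : ℝ} (ha : 0 ≤ a) (hab : a < b) (hb : b ≤ 1) (M N : ℕ) (hM : (M:ℝ) + 1 < N * (b - a)) :
    M ≤ {x : ℝ | x ∈ Ioo a b ∧ meromorphicOrderAt (m N) (x : ℂ) < 0}.ncard := by
  classical
  refine (many ha hab hb M N hM).trans ?_
  have hN : 0 < N := by
    rcases Nat.eq_zero_or_pos N with h | h
    · subst h
      have : (0:ℝ) ≤ M := by positivity
      simp at hM
      linarith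
    · exact h
  have h1 : {x : ℝ | x ∈ Ioo a b ∧ meromorphicOrderAt (m N) (x : ℂ) < 0} =
      (((Finset.range N).filter (fun l => v N l ∈ Ioo a b)).image (v N) : Finset ℝ) := by
    ext x
    rw [Finset.mem_coe, Finset.mem_image]
    constructor
    · rintro ⟨hx, ho⟩
      rw [pole_val (by simpa using lt_of_le_of_lt ha hx.1) (by simpa using lt_of_lt_of_le hx.2 hb)] at ho
      obtain ⟨i, hi, h⟩ := ho
      have h' : x = v N i := Complex.ofReal_injective h
      refine ⟨i, Finset.mem_filter.2 ⟨Finset.mem_range.2 hi, ?_⟩, h'.symm⟩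
      rw [← h']; exact hx
    · rintro ⟨i, hi, rfl⟩
      have hx := (Finset.mem_filter.1 hi).2
      refine ⟨hx, ?_⟩
      rw [pole_val (by simpa using lt_of_le_of_lt ha hx.1) (by simpa using lt_of_lt_of_le hx.2 hb)]
      exact ⟨i, Finset.mem_range.1 (Finset.mem_filter.1 hi).1, rfl⟩
  rw [h1, ncard_coe_finset, Finset.card_image_of_injective _ (v_mono hN).injective]

/-- A sequence `m j` of Nevanlinna functions and a meromorphic function `g` (in fact
`g z = - pi cot (pi z)`), holomorphic on the strip `Ω = {0 < re z < 1}` which contains the interval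
`I = (0, 1)` and real on the real axis, such that the number of poles of `m j` in every nondegenerate
subinterval of `I` tends to infinity, and such that for every bounded open set `U` with closure in
`Ω` which contains a nondegenerate subinterval `(a, b)` of `I` and meets the real axis in an interval,
the number of zeros of `m j - g` in `U` minus the number of poles of `m j` in `U` (both counted with
multiplicity, both finite) tends to infinity. -/
theorem result : ∃ (m : ℕ → ℂ → ℂ) (g : ℂ → ℂ) (Ω : Set ℂ),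
    IsOpen Ω ∧ (∀ x ∈ Ioo (0:ℝ) 1, (x : ℂ) ∈ Ω) ∧ DifferentiableOn ℂ g Ω ∧ (∀ x : ℝ, (g x).im = 0) ∧
    (∀ j, IsNevanlinna (m j)) ∧
    (∀ a b : ℝ, 0 ≤ a → a < b → b ≤ 1 →
      Tendsto (fun j => {x : ℝ | x ∈ Ioo a b ∧ meromorphicOrderAt (m j) (x : ℂ) < 0}.ncard) atTop atTop) ∧
    ∀ U : Set ℂ, IsOpen U → Bornology.IsBounded U → closure U ⊆ Ω →
      (∃ a b : ℝ, a < b ∧ ∀ x ∈ Ioo a b, (x : ℂ) ∈ U) → {x : ℝ | (x : ℂ) ∈ U}.OrdConnected →
      (∀ j, {z ∈ U | meromorphicOrderAt (m j - g) z ≠ 0}.Finite ∧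
        {z ∈ U | meromorphicOrderAt (m j) z < 0}.Finite) ∧
      Tendsto (fun j => (zeroCount (m j - g) U : ℤ) - (poleCount (m j) U : ℤ)) atTop atTop := by
  classical
  have hNj : ∀ j : ℕ, 0 < (j + 2) ^ 2 := fun j => by positivity
  have hgrow : ∀ (c : ℝ) (M : ℕ), 0 < c → ∀ᶠ j : ℕ in atTop, (M:ℝ) + 1 < (((j + 2) ^ 2 : ℕ) : ℝ) * c := by
    intro c M hc
    obtain ⟨J, hJ⟩ := exists_nat_gt (((M:ℝ) + 1) / c)
    filter_upwards [eventually_ge_atTop J] with j hj
    rw [div_lt_iff₀ hc] at hJ
    have h1 : (J:ℝ) ≤ (((j + 2) ^ 2 : ℕ) : ℝ) := by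
      have : J ≤ (j + 2) ^ 2 := by nlinarith
      exact_mod_cast this
    nlinarith
  refine ⟨fun j => m ((j + 2) ^ 2), g, {z | 0 < z.re ∧ z.re < 1}, ?_, ?_, ?_, g_real, fun j => m_nev (hNj j), ?_, ?_⟩
  · exact (isOpen_lt continuous_const Complex.continuous_re).inter (isOpen_lt Complex.continuous_re continuous_const)
  · intro x hx
    exact ⟨by simpa using hx.1, by simpa using hx.2⟩
  · intro z hz
    exact (g_analytic hz.1 hz.2).differentiableAt.differentiableWithinAt
  · intro a b ha hab hb
    rw [tendsto_atTop]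
    intro M
    filter_upwards [hgrow (b - a) M (by linarith)] with j hj
    exact poles_many ha hab hb M _ hj
  · intro U hUo _ hUc ⟨a, b, hab, hJ⟩ hord
    have hU : ∀ z ∈ U, 0 < z.re ∧ z.re < 1 := fun z hz => hUc (subset_closure hz)
    -- the interval lies in (0,1)
    set a' := a + (b - a) / 3 with ha'
    set b' := b - (b - a) / 3 with hb'
    have hab' : a' < b' := by rw [ha', hb']; linarith
    have haU := hU _ (hJ a' ⟨by rw [ha']; linarith, by rw [ha']; linarith⟩)
    have hbU := hU _ (hJ b' ⟨by rw [hb']; linarith, by rw [hb']; linarith⟩)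
    rw [Complex.ofReal_re] at haU hbU
    refine ⟨fun j => ⟨?_, ?_⟩, ?_⟩
    · set N := (j + 2) ^ 2 with hN
      refine Set.Finite.subset ((((Finset.range (N - 1)).image (fun l => (y N l : ℂ))) ∪
        ((Finset.range (3 * N)).image (fun l => (v N l : ℂ))) : Finset ℂ).finite_toSet) ?_
      rintro z ⟨hzU, hz⟩
      by_contra hcon
      rw [Finset.mem_coe, Finset.mem_union, Finset.mem_image, Finset.mem_image] at hcon
      push Not at hcon
      apply hz
      rw [sub_g]
      apply order_other
      · intro l hl h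
        exact hcon.1 l (Finset.mem_range.2 (by omega)) h.symm
      · intro i hi h
        exact hcon.2 i (Finset.mem_range.2 hi) h.symm
    · set N := (j + 2) ^ 2 with hN
      refine Set.Finite.subset (((Finset.range N).image (fun l => (v N l : ℂ)) : Finset ℂ).finite_toSet) ?_
      rintro z ⟨hzU, hz⟩
      rw [pole_val (hU z hzU).1 (hU z hzU).2] at hz
      obtain ⟨i, hi, rfl⟩ := hz
      rw [Finset.mem_coe, Finset.mem_image]
      exact ⟨i, Finset.mem_range.2 hi, rfl⟩
    · rw [tendsto_atTop]
      intro B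
      obtain ⟨M, hM⟩ : ∃ M : ℕ, B + 3 ≤ 2 * (M : ℤ) ∧ 1 ≤ M := ⟨B.toNat + 3, by omega, by omega⟩
      filter_upwards [hgrow (b' - a') M (by linarith)] with j hj
      set N := (j + 2) ^ 2 with hN
      have hN0 : 0 < N := hNj j
      rw [zeroCount_eq hN0 hU, poleCount_eq hN0 hU]
      set A := (Finset.range N).filter (fun l => (v N l : ℂ) ∈ U) with hA
      set C := (Finset.range (N - 1)).filter (fun l => (y N l : ℂ) ∈ U) with hC
      have hcardA : M ≤ A.card := by
        refine (many haU.1.le hab' hbU.2.le M N hj).trans (Finset.card_le_card ?_)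
        intro l hl
        rw [Finset.mem_filter] at hl ⊢
        refine ⟨hl.1, hJ _ ⟨?_, ?_⟩⟩
        · have := hl.2.1
          rw [ha'] at this; linarith
        · have := hl.2.2
          rw [hb'] at this; linarith
      have hAne : A.Nonempty := Finset.card_pos.1 (by omega)
      have hsub : A.erase (A.max' hAne) ⊆ C := by
        intro l hl
        have hlA := Finset.mem_of_mem_erase hl
        have hlt : l < A.max' hAne := lt_of_le_of_ne (Finset.le_max' _ _ hlA) (Finset.ne_of_mem_erase hl)
        have hmax := Finset.max'_mem A hAne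
        set k := A.max' hAne
        rw [hA, Finset.mem_filter, Finset.mem_range] at hlA hmax
        rw [hC, Finset.mem_filter, Finset.mem_range]
        refine ⟨by omega, ?_⟩
        have h1 : y N l ∈ Icc (v N l) (v N k) :=
          ⟨(v_lt_y hlA.1).le, (y_lt_v (by omega)).le.trans ((v_mono hN0).monotone (by omega))⟩
        exact hord.out hlA.2 hmax.2 h1
      have hcard := Finset.card_le_card hsub
      rw [Finset.card_erase_of_mem (Finset.max'_mem A hAne)] at hcard
      push_cast
      omega

end Pool.Agent.Results.MP_9bfa98_an.UnboundedDifference
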